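import Pool.Agent.W5h64.TT.RigB
import Pool.Agent.W5h64.TT.RigC

/-! Injective (or self-orthogonal) modules in the left orthogonal of the algebra, with many small
syzygies, are projective. -/

namespace Pool.Agent.Results.MP_63944b_al.SmallSyzygies

open W5h64.TT

universe u

/-- Let `A` be a finite-dimensional algebra over a field `k` and `c` a natural number. There is
`N` such that the following holds for all left `A`-modules `M` and all `L`. Suppose that in some
resolution of `M` by finitely generated projective modules more than `N` of the syzygies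
`X_0 = M, X_1, …, X_L` have dimension at most `c`, that `Ext^i(M, A) = 0` for `1 ≤ i ≤ L + 1`,
and that `M` is injective or `Ext^i(M, M) = 0` for `1 ≤ i ≤ L`. Then `M` is projective. If
moreover `M ≅ D(A)`, then `A` is injective as a right module. -/
theorem result (k : Type u) [Field k] (A : Type u) [Ring A] [Algebra k A]
    [Module.Finite k A] (c : ℕ) :
    ∃ N : ℕ, ∀ (M : Type u) [AddCommGroup M] [Module A M] (L : ℕ),
      SmallSyzygies k A M N c L →
      (∀ i, 1 ≤ i → i ≤ L + 1 → ExtZero A M A i) →
      (Module.Injective A M ∨ ∀ i, 1 ≤ i → i ≤ L → ExtZero A M M i) →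
      Module.Projective A M ∧
        (Nonempty (M ≃ₗ[A] DA k A) → Module.Injective Aᵐᵒᵖ A) := by
  obtain ⟨N, hN⟩ := exists_small k A c
  refine ⟨N, fun M _ _ L hM hA hE => ?_⟩
  have hE' : ∀ i, 1 ≤ i → i ≤ L → ExtZero A M M i := by
    rcases hE with hI | hE
    · intro i h1 _
      obtain ⟨j, rfl⟩ : ∃ j, i = j + 1 := ⟨i - 1, by omega⟩
      exact ext_injective hI j
    · exact hE
  have hP : Module.Projective A M := hN M L hM hA hE'
  exact ⟨hP, fun ⟨e⟩ => op_injective k A (Module.Projective.of_equiv e)⟩

end Pool.Agent.Results.MP_63944b_al.SmallSyzygies
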